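import Pool.Agent.helper68.QZ.Spec

set_option autoImplicit false

namespace Pool.Agent.QZ

open N1f72dd46 Filter MeasureTheory Complex Metric Pool.Agent.helper6.LD
open scoped ComplexConjugate

/-- the function `max 0 (-sin (t x))` -/
noncomputable def PH_psi (t x : ℝ) : ℝ := max 0 (-Real.sin (t * x))

theorem PH_psi_nonneg (t x : ℝ) : 0 ≤ PH_psi t x := le_max_left _ _

theorem PH_psi_cont (t : ℝ) : Continuous (PH_psi t) := by
  unfold PH_psi
  fun_prop

theorem PH_psi_lip (t x y : ℝ) (ht : 0 ≤ t) : |PH_psi t x - PH_psi t y| ≤ t * |x - y| := by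
  unfold PH_psi
  have h1 := abs_max_sub_max_le_abs (-Real.sin (t * x)) (-Real.sin (t * y)) 0
  rw [max_comm 0, max_comm 0]
  refine h1.trans ?_
  have h2 : -Real.sin (t * x) - -Real.sin (t * y) = -(Real.sin (t * x) - Real.sin (t * y)) := by
    ring
  rw [h2, abs_neg]
  refine (Real.abs_sin_sub_sin_le _ _).trans ?_
  rw [← mul_sub, abs_mul, abs_of_nonneg ht]

theorem PH_psi_zero (t : ℝ) : PH_psi t 0 = 0 := by simp [PH_psi]

theorem PH_arg (t : ℝ) (m : ℕ) (ht : 1 ≤ t) : t * (2 * Real.pi * m / t) = m * (2 * Real.pi) := by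
  have : t ≠ 0 := by linarith
  field_simp

theorem PH_psi_end (t : ℝ) (m : ℕ) (ht : 1 ≤ t) : PH_psi t (2 * Real.pi * m / t) = 0 := by
  unfold PH_psi
  rw [PH_arg t m ht]
  have : Real.sin (m * (2 * Real.pi)) = 0 := by
    have h := Real.sin_nat_mul_pi (m * 2)
    rw [← h]
    push_cast
    ring_nf
  rw [this]
  simp

theorem PH_clamp (t : ℝ) (m : ℕ) (ht : 1 ≤ t) (u : ℝ) :
    ph t m u = PH_psi t (max 0 (min (2 * Real.pi * m / t) u)) := by
  have hS : 0 ≤ 2 * Real.pi * m / t := by positivity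
  unfold ph
  split_ifs with h
  · rw [min_eq_right h.2, max_eq_right h.1]
    rfl
  · by_cases h0 : 0 ≤ u
    · have h1 : 2 * Real.pi * m / t < u := by
        by_contra h2
        exact h ⟨h0, not_lt.mp h2⟩
      rw [min_eq_left h1.le, max_eq_right hS, PH_psi_end t m ht]
    · have h1 : u < 0 := not_le.mp h0
      rw [max_eq_left ((min_le_right _ _).trans h1.le), PH_psi_zero]

theorem PH_good (t : ℝ) (m : ℕ) (ht : 1 ≤ t) (hs : 2 * Real.pi * m / t ≤ 1 / 4) :
    Good t (1 / 4) (ph t m) := by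
  have hS : 0 ≤ 2 * Real.pi * m / t := by positivity
  refine ⟨?_, ?_, ?_, ?_, ?_⟩
  · intro u
    rw [PH_clamp t m ht]
    exact PH_psi_nonneg _ _
  · intro u
    rw [PH_clamp t m ht]
    unfold PH_psi
    apply max_le (by norm_num)
    have := Real.neg_one_le_sin (t * max 0 (min (2 * Real.pi * m / t) u))
    linarith
  · intro u v
    rw [PH_clamp t m ht, PH_clamp t m ht]
    refine (PH_psi_lip t _ _ (by linarith)).trans ?_
    apply mul_le_mul_of_nonneg_left _ (by linarith)
    have h1 := abs_max_sub_max_le_max 0 (min (2 * Real.pi * m / t) u) 0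
      (min (2 * Real.pi * m / t) v)
    have h2 := abs_min_sub_min_le_max (2 * Real.pi * m / t) u (2 * Real.pi * m / t) v
    rw [sub_self, abs_zero] at h1 h2
    have h2b := h2.trans (max_le (abs_nonneg (u - v)) le_rfl)
    exact h1.trans (max_le (abs_nonneg (u - v)) h2b)
  · intro u hu
    rw [PH_clamp t m ht, max_eq_left ((min_le_right _ _).trans hu), PH_psi_zero]
  · intro u hu
    rw [PH_clamp t m ht, min_eq_left (hs.trans hu), max_eq_right hS, PH_psi_end t m ht]

theorem PH_cont (t : ℝ) (m : ℕ) (ht : 1 ≤ t) : Continuous (ph t m) := by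
  have : ph t m = fun u => PH_psi t (max 0 (min (2 * Real.pi * m / t) u)) := by
    funext u
    exact PH_clamp t m ht u
  rw [this]
  exact (PH_psi_cont t).comp (by fun_prop)

theorem PH_large (t : ℝ) (m : ℕ) (ht : 1 ≤ t) (u : ℝ) (hu : 2 * Real.pi * m / t ≤ u) :
    ph t m u = 0 := by
  have hS : 0 ≤ 2 * Real.pi * m / t := by positivity
  rw [PH_clamp t m ht, min_eq_left hu, max_eq_right hS, PH_psi_end t m ht]

theorem PH_one (t : ℝ) (m : ℕ) (ht : 1 ≤ t) (hs : 2 * Real.pi * m / t ≤ 1 / 4) :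
    ∫ u in (0 : ℝ)..(1 / 4), ph t m u * u ≤ (2 * Real.pi * m / t) ^ 2 := by
  have hS : 0 ≤ 2 * Real.pi * m / t := by positivity
  set S := 2 * Real.pi * m / t with hSd
  have hg := PH_good t m ht hs
  have hc : Continuous (fun u => ph t m u * u) := (PH_cont t m ht).mul continuous_id
  rw [← intervalIntegral.integral_add_adjacent_intervals (b := S)
    (hc.intervalIntegrable _ _) (hc.intervalIntegrable _ _)]
  have h1 : ∫ u in S..(1 / 4), ph t m u * u = 0 := by
    apply intervalIntegral.integral_zero_ae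
    refine Filter.Eventually.of_forall ?_
    intro u hu
    rw [Set.uIoc_of_le hs] at hu
    rw [PH_large t m ht u hu.1.le, zero_mul]
  rw [h1, add_zero]
  have h2 : ∫ u in (0 : ℝ)..S, ph t m u * u ≤ ∫ _u in (0 : ℝ)..S, S := by
    apply intervalIntegral.integral_mono_on hS (hc.intervalIntegrable _ _)
      (continuous_const.intervalIntegrable _ _)
    intro u hu
    calc ph t m u * u ≤ 1 * u := mul_le_mul_of_nonneg_right (hg.le_one u) hu.1
      _ ≤ S := by rw [one_mul]; exact hu.2
  refine h2.trans ?_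
  rw [intervalIntegral.integral_const, sub_zero, smul_eq_mul]
  exact le_of_eq (by ring)

theorem PH_sq (t : ℝ) (m : ℕ) (ht : 1 ≤ t) :
    ∫ u in (0 : ℝ)..(2 * Real.pi * m / t), PH_psi t u ^ 2 = 2 * Real.pi * m / t / 4 := by
  set S := 2 * Real.pi * m / t with hSd
  have ht0 : t ≠ 0 := by linarith
  have hc1 : Continuous (fun u => PH_psi t u ^ 2) := (PH_psi_cont t).pow 2
  have hc2 : Continuous (fun u => PH_psi t (S - u) ^ 2) :=
    ((PH_psi_cont t).comp (by fun_prop)).pow 2
  have h1 : ∫ u in (0 : ℝ)..S, PH_psi t (S - u) ^ 2 = ∫ u in (0 : ℝ)..S, PH_psi t u ^ 2 := by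
    have := intervalIntegral.integral_comp_sub_left (a := 0) (b := S)
      (fun u => PH_psi t u ^ 2) S
    rw [sub_self, sub_zero] at this
    exact this
  have h2 : ∀ u : ℝ, PH_psi t u ^ 2 + PH_psi t (S - u) ^ 2 = Real.sin (t * u) ^ 2 := by
    intro u
    have e : Real.sin (t * (S - u)) = -Real.sin (t * u) := by
      rw [mul_sub, hSd, PH_arg t m ht, Real.sin_nat_mul_two_pi_sub]
    unfold PH_psi
    rw [e, neg_neg]
    rcases le_total 0 (Real.sin (t * u)) with h | h
    · rw [max_eq_left (by linarith : -Real.sin (t * u) ≤ 0), max_eq_right h]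
      ring
    · rw [max_eq_right (by linarith : 0 ≤ -Real.sin (t * u)), max_eq_left h]
      ring
  have h3 : ∫ u in (0 : ℝ)..S, Real.sin (t * u) ^ 2 = S / 2 := by
    have e := intervalIntegral.integral_comp_mul_left (a := 0) (b := S)
      (fun x => Real.sin x ^ 2) ht0
    rw [e, mul_zero, integral_sin_sq, hSd, PH_arg t m ht]
    have e2 : Real.sin (m * (2 * Real.pi)) = 0 := by
      have h := Real.sin_nat_mul_pi (m * 2)
      rw [← h]
      push_cast
      ring_nf
    rw [e2, Real.sin_zero, smul_eq_mul]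
    field_simp
    ring
  have h4 : (∫ u in (0 : ℝ)..S, PH_psi t u ^ 2) + ∫ u in (0 : ℝ)..S, PH_psi t (S - u) ^ 2 =
      S / 2 := by
    rw [← h3, ← intervalIntegral.integral_add (hc1.intervalIntegrable _ _)
      (hc2.intervalIntegrable _ _)]
    apply intervalIntegral.integral_congr
    intro u _
    exact h2 u
  rw [h1] at h4
  linarith

theorem PH_im (σ t u : ℝ) :
    (Complex.exp (((σ : ℂ) + t * I) * u) - Complex.exp (-((σ : ℂ) + t * I) * u)).im =
      (Real.exp (σ * u) + Real.exp (-(σ * u))) * Real.sin (t * u) := by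
  rw [Complex.sub_im, Complex.exp_im, Complex.exp_im]
  have e1 : (((σ : ℂ) + t * I) * u).re = σ * u := by simp
  have e2 : (((σ : ℂ) + t * I) * u).im = t * u := by simp
  have e3 : (-((σ : ℂ) + t * I) * u).re = -(σ * u) := by simp
  have e4 : (-((σ : ℂ) + t * I) * u).im = -(t * u) := by simp
  rw [e1, e2, e3, e4, Real.sin_neg]
  ring

theorem PH_lower (t : ℝ) (m : ℕ) (ht : 1 ≤ t) (hs : 2 * Real.pi * m / t ≤ 1 / 4)
    (σ : ℝ) : 2 * Real.pi * m / t / 2 ≤ ‖Ph ((σ : ℂ) + t * I) (ph t m)‖ := by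
  have hS : 0 ≤ 2 * Real.pi * m / t := by positivity
  have hc := PH_cont t m ht
  have hcI : Continuous (fun u : ℝ => ((ph t m u : ℝ) : ℂ) *
      (Complex.exp (((σ : ℂ) + t * I) * u) - Complex.exp (-((σ : ℂ) + t * I) * u))) := by
    apply Continuous.mul
    · exact Complex.continuous_ofReal.comp hc
    · fun_prop
  have him : (Ph ((σ : ℂ) + t * I) (ph t m)).im = ∫ u in (0 : ℝ)..(1 / 4),
      ph t m u * ((Real.exp (σ * u) + Real.exp (-(σ * u))) * Real.sin (t * u)) := by
    unfold Ph
    have e := Complex.imCLM.intervalIntegral_comp_comm (hcI.intervalIntegrable (μ := volume) 0 (1 / 4))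
    have e' : Complex.imCLM (∫ u in (0 : ℝ)..(1 / 4), ((ph t m u : ℝ) : ℂ) *
      (Complex.exp (((σ : ℂ) + t * I) * u) - Complex.exp (-((σ : ℂ) + t * I) * u))) =
      (∫ u in (0 : ℝ)..(1 / 4), ((ph t m u : ℝ) : ℂ) *
      (Complex.exp (((σ : ℂ) + t * I) * u) - Complex.exp (-((σ : ℂ) + t * I) * u))).im := rfl
    rw [← e', ← e]
    apply intervalIntegral.integral_congr
    intro u _
    show (((ph t m u : ℝ) : ℂ) *
      (Complex.exp (((σ : ℂ) + t * I) * u) - Complex.exp (-((σ : ℂ) + t * I) * u))).im = _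
    rw [Complex.im_ofReal_mul, PH_im]
  -- the integrand is the negative of a square times a cosh
  have hcR : Continuous (fun u : ℝ =>
      ph t m u * ((Real.exp (σ * u) + Real.exp (-(σ * u))) * Real.sin (t * u))) := by
    apply hc.mul
    fun_prop
  rw [← intervalIntegral.integral_add_adjacent_intervals (b := 2 * Real.pi * m / t)
    (hcR.intervalIntegrable _ _) (hcR.intervalIntegrable _ _)] at him
  have h1 : ∫ u in (2 * Real.pi * m / t)..(1 / 4),
      ph t m u * ((Real.exp (σ * u) + Real.exp (-(σ * u))) * Real.sin (t * u)) = 0 := by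
    apply intervalIntegral.integral_zero_ae
    refine Filter.Eventually.of_forall ?_
    intro u hu
    rw [Set.uIoc_of_le hs] at hu
    rw [PH_large t m ht u hu.1.le, zero_mul]
  rw [h1, add_zero] at him
  have hcP : Continuous (fun u => -2 * PH_psi t u ^ 2) :=
    continuous_const.mul ((PH_psi_cont t).pow 2)
  have h2 : ∫ u in (0 : ℝ)..(2 * Real.pi * m / t),
      ph t m u * ((Real.exp (σ * u) + Real.exp (-(σ * u))) * Real.sin (t * u)) ≤
      ∫ u in (0 : ℝ)..(2 * Real.pi * m / t), -2 * PH_psi t u ^ 2 := by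
    apply intervalIntegral.integral_mono_on hS (hcR.intervalIntegrable _ _)
      (hcP.intervalIntegrable _ _)
    intro u hu
    have e : ph t m u = PH_psi t u := by
      rw [PH_clamp t m ht, min_eq_right hu.2, max_eq_right hu.1]
    rw [e]
    have hch : 2 ≤ Real.exp (σ * u) + Real.exp (-(σ * u)) := by
      have a1 := Real.add_one_le_exp (σ * u)
      have a2 := Real.add_one_le_exp (-(σ * u))
      linarith
    have hps : PH_psi t u * Real.sin (t * u) = -(PH_psi t u ^ 2) := by
      unfold PH_psi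
      rcases le_total 0 (Real.sin (t * u)) with h | h
      · rw [max_eq_left (by linarith : -Real.sin (t * u) ≤ 0)]
        ring
      · rw [max_eq_right (by linarith : 0 ≤ -Real.sin (t * u))]
        ring
    calc PH_psi t u * ((Real.exp (σ * u) + Real.exp (-(σ * u))) * Real.sin (t * u))
        = -((Real.exp (σ * u) + Real.exp (-(σ * u))) * PH_psi t u ^ 2) := by
          rw [show PH_psi t u * ((Real.exp (σ * u) + Real.exp (-(σ * u))) * Real.sin (t * u)) =
            (Real.exp (σ * u) + Real.exp (-(σ * u))) * (PH_psi t u * Real.sin (t * u)) by ring,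
            hps]
          ring
      _ ≤ -2 * PH_psi t u ^ 2 := by
          nlinarith [sq_nonneg (PH_psi t u)]
  have h3 : ∫ u in (0 : ℝ)..(2 * Real.pi * m / t), -2 * PH_psi t u ^ 2 =
      -(2 * Real.pi * m / t / 2) := by
    rw [intervalIntegral.integral_const_mul, PH_sq t m ht]
    ring
  have h4 : (Ph ((σ : ℂ) + t * I) (ph t m)).im ≤ -(2 * Real.pi * m / t / 2) := by
    rw [him, ← h3]
    exact h2
  have h5 := Complex.abs_im_le_norm (Ph ((σ : ℂ) + t * I) (ph t m))
  have h6 := neg_le_abs (Ph ((σ : ℂ) + t * I) (ph t m)).im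
  linarith

theorem PH : PH_stmt := by
  intro t m ht _ hs
  exact ⟨PH_good t m ht hs, PH_one t m ht hs, fun σ _ => PH_lower t m ht hs σ⟩

end Pool.Agent.QZ
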